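import Mathlib

/-! Identities of semigroups, finite bases, Cayley tables. -/

namespace Pool.Agent.P.MP_e7c2f2_al.Hedge

/-- the semigroup `S` satisfies the identity `u ≈ v` -/
def Holds (S : Type) [Semigroup S] (u v : FreeSemigroup ℕ) : Prop :=
  ∀ φ : FreeSemigroup ℕ →ₙ* S, φ u = φ v

/-- the variety generated by `S` is defined by finitely many identities -/
def FinBased (S : Type) [Semigroup S] : Prop :=
  ∃ B : Finset (FreeSemigroup ℕ × FreeSemigroup ℕ), (∀ p ∈ B, Holds S p.1 p.2) ∧
    ∀ (G : Type) [Semigroup G], (∀ p ∈ B, Holds G p.1 p.2) → ∀ u v, Holds S u v → Holds G u v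

/-- the word `u` uses only the first `k` variables -/
def InVars (k : ℕ) (u : FreeSemigroup ℕ) : Prop := u.head < k ∧ ∀ x ∈ u.tail, x < k

/-- for every `k` some finite semigroup satisfies all identities of `S` in `k` variables but not
all identities of `S` -/
def InfRank (S : Type) [Semigroup S] : Prop :=
  ∀ k : ℕ, ∃ (G : Type) (_ : Semigroup G), Finite G ∧
    (∀ u v, InVars k u → InVars k v → Holds S u v → Holds G u v) ∧
    ∃ u v, Holds S u v ∧ ¬ Holds G u v

/-- elements that generate the same two-sided ideal are equal -/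
def JTrivial (S : Type) [Semigroup S] : Prop :=
  ∀ a b : S, (∃ x y : WithOne S, (a : WithOne S) = x * b * y) →
    (∃ x y : WithOne S, (b : WithOne S) = x * a * y) → a = b

/-- idempotents commute -/
def IdemComm (S : Type) [Semigroup S] : Prop :=
  ∀ a b : S, a * a = a → b * b = b → a * b = b * a

/-- `T` is the Cayley table of `S` for some numbering of the elements of `S` -/
def Tabulates (T : List (List ℕ)) (S : Type) [Semigroup S] : Prop :=
  ∃ e : S ≃ Fin T.length, (∀ r ∈ T, r.length = T.length) ∧
    ∀ a b : S, (T.getD (e a) []).getD (e b) 0 = e (a * b)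

end Pool.Agent.P.MP_e7c2f2_al.Hedge
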