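import Pool.Agent.P.MP_e7c2f2_al.Hedge.Defs
import Pool.Agent.P.MP_e7c2f2_al.Final

/-! General facts on identities: values of words, the argument of Birkhoff, partial maps. -/

namespace Pool.Agent.P.MP_e7c2f2_al.Hedge

open FreeSemigroup

theorem hom_congr {S : Type} [Semigroup S] {φ ψ : FreeSemigroup ℕ →ₙ* S} (u : FreeSemigroup ℕ)
    (h : ∀ x ∈ toL u, φ (of x) = ψ (of x)) : φ u = ψ u := by
  induction u using FreeSemigroup.recOnMul with
  | ih1 x => exact h x (by simp [toL])
  | ih2 x y ih1 ih2 =>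
    rw [toL_mul] at h
    rw [map_mul, map_mul, ih1 fun z hz => h z (List.mem_append_left _ hz),
      ih2 fun z hz => h z (List.mem_append_right _ hz)]

theorem inVars_iff {k : ℕ} {u : FreeSemigroup ℕ} : InVars k u ↔ ∀ x ∈ toL u, x < k := by
  simp [InVars, toL]

/-- the values of a word under all assignments of the letters of a finite set -/
noncomputable def val (S : Type) [Semigroup S] [Nonempty S] (X : Finset ℕ) (u : FreeSemigroup ℕ) :
    (X → S) → S := fun θ =>
  FreeSemigroup.lift (fun x => if h : x ∈ X then θ ⟨x, h⟩ else Classical.arbitrary S) u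

theorem holds_iff_val {S : Type} [Semigroup S] [Nonempty S] {X : Finset ℕ} {u v : FreeSemigroup ℕ}
    (hu : ∀ x ∈ toL u, x ∈ X) (hv : ∀ x ∈ toL v, x ∈ X) :
    Holds S u v ↔ val S X u = val S X v := by
  refine ⟨fun h => funext fun θ => h _, fun h φ => ?_⟩
  have := congrFun h fun x => φ (of x)
  unfold val at this
  rw [hom_congr (ψ := φ) u fun x hx => by simp [hu x hx],
    hom_congr (ψ := φ) v fun x hx => by simp [hv x hx]] at this
  exact this

theorem Holds.mul_of {S : Type} [Semigroup S] {u v : FreeSemigroup ℕ} (h : Holds S u v)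
    (w : FreeSemigroup ℕ) : Holds S (w * u) (w * v) := fun φ => by rw [map_mul, map_mul, h φ]

/-- identities in `k` variables follow from those of bounded length -/
theorem birkhoff (S : Type) [Semigroup S] [Nonempty S] [Finite S] (k : ℕ) : ∃ n : ℕ,
    ∀ (G : Type) [Semigroup G], (∀ s t, (toL s).length ≤ n → (toL t).length ≤ n → Holds S s t →
      Holds G s t) → ∀ u v, InVars k u → InVars k v → Holds S u v → Holds G u v := by
  classical
  let X := Finset.range k
  let r : ((X → S) → S) → FreeSemigroup ℕ := fun c =>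
    if h : ∃ w, InVars k w ∧ val S X w = c then h.choose else of 0
  have hr : ∀ w, InVars k w → InVars k (r (val S X w)) ∧ val S X (r (val S X w)) = val S X w := by
    intro w hw
    have h : ∃ w', InVars k w' ∧ val S X w' = val S X w := ⟨w, hw, rfl⟩
    simp only [r, dif_pos h]
    exact h.choose_spec
  have hX : ∀ {w}, InVars k w → ∀ x ∈ toL w, x ∈ X := fun hw x hx =>
    Finset.mem_range.mpr (inVars_iff.mp hw x hx)
  have hS : ∀ w, InVars k w → Holds S w (r (val S X w)) := fun w hw =>
    (holds_iff_val (hX hw) (hX (hr w hw).1)).mpr (hr w hw).2.symm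
  obtain ⟨l, hl⟩ : ∃ l, ∀ c, (toL (r c)).length ≤ l := by
    obtain ⟨l, hl⟩ := (Set.finite_range fun c => (toL (r c)).length).bddAbove
    exact ⟨l, fun c => hl ⟨c, rfl⟩⟩
  refine ⟨l + 1, fun G _ hG u v hu hv h => ?_⟩
  have key : ∀ w, InVars k w → Holds G w (r (val S X w)) := by
    intro w
    induction w using FreeSemigroup.recOnMul with
    | ih1 x =>
      intro hw
      exact hG _ _ (by simp [toL]) ((hl _).trans (Nat.le_succ _)) (hS _ hw)
    | ih2 x y _ ih2 =>
      intro hw φ
      have hy : InVars k y := inVars_iff.mpr fun z hz =>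
        inVars_iff.mp hw z (by rw [toL_mul]; exact List.mem_append_right _ hz)
      rw [(ih2 hy).mul_of (of x) φ]
      refine hG _ _ ?_ ((hl _).trans (Nat.le_succ _)) (fun ψ => ?_) φ
      · have := hl (val S X y)
        rw [toL_mul, List.length_append]
        have e : (toL (of x)).length = 1 := rfl
        omega
      · rw [← (hS y hy).mul_of (of x) ψ]
        exact hS _ hw ψ
  intro φ
  rw [key u hu φ, key v hv φ, (holds_iff_val (hX hu) (hX hv)).mp h]

theorem before_append {b a : ℕ} {l r : List ℕ} :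
    Before b a (l ++ r) ↔ Before b a l ∧ Before b a r ∧ ¬ (a ∈ l ∧ b ∈ r) := by
  constructor
  · intro h
    refine ⟨fun p hp p' hp' e e' => h p (by simp; omega) p' (by simp; omega)
      (by rwa [lt_append_left _ hp]) (by rwa [lt_append_left _ hp']),
      fun p hp p' hp' e e' => ?_, fun ⟨h1, h2⟩ => ?_⟩
    · have := h (l.length + p) (by simp; omega) (l.length + p') (by simp; omega)
        (by rwa [lt_append_right]) (by rwa [lt_append_right])
      omega
    · obtain ⟨p', hp', e'⟩ := exists_lt_of_mem h1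
      obtain ⟨p, hp, e⟩ := exists_lt_of_mem h2
      have := h (l.length + p) (by simp; omega) p' (by simp; omega)
        (by rwa [lt_append_right]) (by rwa [lt_append_left _ hp'])
      omega
  · rintro ⟨h1, h2, h3⟩ p hp p' hp' e e'
    rw [List.length_append] at hp hp'
    by_cases c : p < l.length <;> by_cases c' : p' < l.length
    · rw [lt_append_left _ c] at e
      rw [lt_append_left _ c'] at e'
      exact h1 p c p' c' e e'
    · omega
    · obtain ⟨k, rfl⟩ := Nat.exists_eq_add_of_le (not_lt.mp c)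
      rw [lt_append_right] at e
      rw [lt_append_left _ c'] at e'
      exact absurd ⟨e' ▸ lt_mem c', e ▸ lt_mem (by omega)⟩ h3
    · obtain ⟨k, rfl⟩ := Nat.exists_eq_add_of_le (not_lt.mp c)
      obtain ⟨k', rfl⟩ := Nat.exists_eq_add_of_le (not_lt.mp c')
      rw [lt_append_right] at e e'
      have := h2 k (by omega) k' (by omega) e e'
      omega

/-- a restriction of the identity, or a strictly increasing map -/
def Side (c : ℕ → Option ℕ) : Prop :=
  (∀ q r, c q = some r → r = q) ∨ ∀ q r, c q = some r → q < r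

theorem Side.le {c : ℕ → Option ℕ} (h : Side c) {q r : ℕ} (e : c q = some r) : q ≤ r := by
  rcases h with h | h
  · exact (h q r e).ge
  · exact (h q r e).le

theorem Side.fix {c : ℕ → Option ℕ} (h : Side c) {q : ℕ} (e : c q = some q) :
    ∀ q r, c q = some r → r = q := h.resolve_right fun h => lt_irrefl _ (h q q e)

theorem restr {s s' c d : ℕ → Option ℕ} (hc : ∀ q r, c q = some r → r = q)
    (hd : ∀ q r, d q = some r → r = q) (e : s' = fun q => ((c q).bind s).bind d) {q r : ℕ}
    (h : s' q = some r) : s q = some r := by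
  rw [e] at h
  obtain ⟨t, h1, h2⟩ := Option.bind_eq_some_iff.mp h
  obtain ⟨t', h3, h4⟩ := Option.bind_eq_some_iff.mp h1
  rw [hd _ _ h2, ← hc _ _ h3]
  exact h4

theorem jtriv_maps {s s' c d c' d' : ℕ → Option ℕ} {m : ℕ} (hm : ∀ q r, s q = some r → q ≤ m)
    (hc : Side c) (hd : Side d) (hc' : Side c') (hd' : Side d')
    (e' : s' = fun q => ((c q).bind s).bind d) (e : s = fun q => ((c' q).bind s').bind d') :
    s = s' := by
  classical
  have dec : ∀ q r, s q = some r → ∃ q₁ q₂ r₂ r₁, c' q = some q₁ ∧ c q₁ = some q₂ ∧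
      s q₂ = some r₂ ∧ d r₂ = some r₁ ∧ d' r₁ = some r := by
    intro q r h
    rw [e] at h
    obtain ⟨r₁, h1, h2⟩ := Option.bind_eq_some_iff.mp h
    obtain ⟨q₁, h3, h4⟩ := Option.bind_eq_some_iff.mp h1
    rw [e'] at h4
    obtain ⟨r₂, h5, h6⟩ := Option.bind_eq_some_iff.mp h4
    obtain ⟨q₂, h7, h8⟩ := Option.bind_eq_some_iff.mp h5
    exact ⟨q₁, q₂, r₂, r₁, h3, h7, h8, h6, h2⟩
  by_cases h0 : ∃ q r, s q = some r
  swap
  · push Not at h0
    have h1 : ∀ q, s q = none := fun q => Option.eq_none_iff_forall_ne_some.mpr (h0 q)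
    rw [e']
    funext q
    rw [h1 q]
    cases c q <;> simp [h1]
  obtain ⟨q, ⟨r, hq⟩, hmax⟩ := Set.Finite.exists_maximal
    ((Set.finite_Iic m).subset fun q (hq : ∃ r, s q = some r) => by
      obtain ⟨r, hr⟩ := hq; exact hm q r hr) h0
  obtain ⟨q₁, q₂, r₂, r₁, a1, a2, a3, -, -⟩ := dec q r hq
  have b1 := hc'.le a1
  have b2 := hc.le a2
  have b3 : q₂ ≤ q := hmax ⟨r₂, a3⟩ (b1.trans b2)
  obtain rfl : q₁ = q := by omega
  obtain rfl : q₂ = q₁ := by omega
  have h1 : ∃ r q, s q = some r := ⟨r, _, hq⟩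
  obtain ⟨p, hp⟩ := Nat.find_spec h1
  obtain ⟨p₁, p₂, t₂, t₁, -, -, f3, f4, f5⟩ := dec p _ hp
  have g1 := hd.le f4
  have g2 := hd'.le f5
  have g3 : Nat.find h1 ≤ t₂ := Nat.find_min' h1 ⟨p₂, f3⟩
  obtain rfl : t₁ = t₂ := by omega
  have g4 : Nat.find h1 = t₁ := by omega
  rw [g4] at f5
  funext x
  refine Option.ext fun y => ⟨fun h => ?_, fun h => ?_⟩
  · exact restr (hc'.fix a1) (hd'.fix f5) e h
  · exact restr (hc.fix a2) (hd.fix f4) e' h

end Pool.Agent.P.MP_e7c2f2_al.Hedge
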