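import Pool.Agent.P.MP_e7c2f2_al.Hedge.Gen

/-! The semigroups of the reduction are J-trivial with commuting idempotents; in the
non-halting case the short identities do not suffice even among finite semigroups. -/

namespace Pool.Agent.P.MP_e7c2f2_al.Hedge

open FreeSemigroup

/-- the elements of the table -/
def TS (P : Par) (_ : WF P) : Type := Fin (tbP P).length

section

variable {P : Par} (hP : WF P)

noncomputable instance : Semigroup (TS P hP) where
  mul a b := ⟨((tbP P).getD a.1 []).getD b.1 0, op_lt hP a.2 b.2⟩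
  mul_assoc a b c := Fin.ext (table_assoc hP a.1 b.1 c.1 a.2 b.2 c.2)

instance : Finite (TS P hP) := inferInstanceAs (Finite (Fin _))

instance : Nonempty (TS P hP) := ⟨⟨0, by rw [length_tb]; simp [els]⟩⟩

theorem mul_val (a b : TS P hP) : (a * b).1 = ((tbP P).getD a.1 []).getD b.1 0 := rfl

theorem tabulates : Tabulates (tbP P) (TS P hP) :=
  ⟨Equiv.refl _, fun r hr => (table_shape hP r hr).1, fun _ _ => rfl⟩

theorem fold_val (θ : ℕ → TS P hP) (l : List ℕ) (a : TS P hP) :
    (l.foldl (fun a b => a * θ b) a).1 =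
      (l.map fun k => (θ k).1).foldl (fun x y => ((tbP P).getD x []).getD y 0) a.1 := by
  induction l generalizing a with
  | nil => rfl
  | cons b l ih => rw [List.foldl_cons, ih, List.map_cons, List.foldl_cons, mul_val]

theorem holds_iff (u v : FreeSemigroup ℕ) : Holds (TS P hP) u v ↔ TV (tbP P) u v := by
  constructor
  · intro h f hf
    have := congrArg Fin.val (h (FreeSemigroup.lift fun k => (⟨f k, hf k⟩ : TS P hP)))
    exact (fold_val hP _ _ _).symm.trans (this.trans (fold_val hP _ _ _))
  · intro h φ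
    have e : ∀ w, φ w = FreeSemigroup.lift (fun k => φ (of k)) w := fun w =>
      hom_congr w fun x _ => by simp
    rw [e u, e v]
    exact Fin.ext ((fold_val hP _ _ _).trans
      ((h _ fun k => (φ (of k)).2).trans (fold_val hP _ _ _).symm))

theorem holds_valid (u v : FreeSemigroup ℕ) :
    Holds (TS P hP) u v ↔ Valid P (toL u) (toL v) := (holds_iff hP u v).trans (tv_iff hP u v)

theorem finBased (h : FBT (tbP P)) : FinBased (TS P hP) := by
  obtain ⟨B, h1, h2⟩ := h
  refine ⟨B, fun p hp => (holds_iff hP _ _).mpr (h1 p hp), fun G _ hG u v h =>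
    h2 u v ((holds_iff hP _ _).mp h) (Holds G)
      ⟨fun _ _ => rfl, fun h φ => (h φ).symm, fun h h' φ => (h φ).trans (h' φ)⟩
      (fun a b c h => ⟨h.mul_of c, fun φ => by rw [map_mul, map_mul, h φ]⟩)
      (fun σ a b h φ => h (φ.comp (FreeSemigroup.lift σ))) hG⟩

/-- the element of the list attached to an index -/
noncomputable def ev (a : TS P hP) : El := (elP P).getD a.1 zer

theorem ev_mul (a b : TS P hP) : ev hP (a * b) = mul (ev hP a) (ev hP b) := ev_op hP a.2 b.2

theorem canon (a b : TS P hP) : (a * b).1 = ix (elP P) (ev hP (a * b)) := by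
  rw [ev_mul]; exact op_eq a.2 b.2

theorem ev_cases (a : TS P hP) : ev hP a = zer ∨
    ((ev hP a).2.length = (ev hP a).1.1.length + 1 ∧
      IsElt P.K (ev hP a).1.1 (ev hP a).1.2.1 (ev hP a).1.2.2 (app (ev hP a).2)) :=
  ((mem_els hP).mp (ev_mem a.2)).imp_right fun h => h.2

theorem side_ev (a : TS P hP) : Side (app (ev hP a).2) := by
  rcases ev_cases hP a with h | h
  · rw [h]; exact .inl fun q r e => by simp [zer, app, lt] at e
  · rcases h.2.cases with h | h
    · exact .inl fun q r e => (h q r e).1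
    · exact .inr fun q r e => (h.1 q r e).1

theorem len_eq {a b : TS P hP} (h : (ev hP a).1 = (ev hP b).1) (ha : ¬ (ev hP a).2 = [])
    (hb : ¬ (ev hP b).2 = []) : (ev hP a).2.length = (ev hP b).2.length := by
  have h1 := (ev_cases hP a).resolve_left fun e => ha (by rw [e]; rfl)
  have h2 := (ev_cases hP b).resolve_left fun e => hb (by rw [e]; rfl)
  rw [h1.1, h2.1, h]

/-- `a` is zero or arises from `b` by composing with side factors -/
def Below (a b : El) : Prop := a = zer ∨ (a.1 = b.1 ∧ a.2.length = b.2.length ∧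
  ∃ c d, Side c ∧ Side d ∧ app a.2 = fun q => ((c q).bind (app b.2)).bind d)

theorem side_some : Side some := .inl fun _ _ e => (Option.some.inj e).symm

theorem below {a b : TS P hP} {x y : WithOne (TS P hP)}
    (h : (a : WithOne (TS P hP)) = x * b * y) (hne : a ≠ b) :
    Below (ev hP a) (ev hP b) ∧ a.1 = ix (elP P) (ev hP a) := by
  induction x using WithOne.recOneCoe with
  | one =>
    induction y using WithOne.recOneCoe with
    | one => exact absurd (WithOne.coe_inj.mp (by simpa using h)) hne
    | coe y =>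
      obtain rfl : a = b * y := WithOne.coe_inj.mp (by simpa using h)
      refine ⟨?_, canon hP _ _⟩
      rw [ev_mul, mul]
      split_ifs with c
      · exact .inr ⟨rfl, length_cmp _ _, some, _, side_some, side_ev hP y, by
          rw [app_cmp]; rfl⟩
      · exact .inl rfl
  | coe x =>
    induction y using WithOne.recOneCoe with
    | one =>
      obtain rfl : a = x * b := WithOne.coe_inj.mp (by simpa using h)
      refine ⟨?_, canon hP _ _⟩
      rw [ev_mul, mul]
      split_ifs with c
      · exact .inr ⟨c.1, (length_cmp _ _).trans (len_eq hP c.1 c.2.1 c.2.2), _, some,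
          side_ev hP x, side_some, by rw [app_cmp]; funext q; simp⟩
      · exact .inl rfl
    | coe y =>
      obtain rfl : a = x * b * y := WithOne.coe_inj.mp (by simpa using h)
      refine ⟨?_, canon hP _ _⟩
      rw [ev_mul, ev_mul]
      by_cases c : (ev hP x).1 = (ev hP b).1 ∧ ¬ (ev hP x).2 = [] ∧ ¬ (ev hP b).2 = []
      · rw [mul.eq_1 (ev hP x), if_pos c, mul]
        split_ifs with c'
        · exact .inr ⟨c.1, ((length_cmp _ _).trans (length_cmp _ _)).trans
            (len_eq hP c.1 c.2.1 c.2.2), _, _, side_ev hP x, side_ev hP y, by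
              rw [app_cmp, app_cmp]⟩
        · exact .inl rfl
      · rw [mul.eq_1 (ev hP x), if_neg c, mul, if_neg (by simp [zer])]
        exact .inl rfl

theorem jTrivial : JTrivial (TS P hP) := by
  rintro a b ⟨x, y, h⟩ ⟨x', y', h'⟩
  by_contra hne
  obtain ⟨h1, h2⟩ := below hP h hne
  obtain ⟨h3, h4⟩ := below hP h' (Ne.symm hne)
  have z : ∀ {s t : El}, s = zer → s.1 = t.1 → s.2.length = t.2.length → s = t := by
    rintro s t rfl e1 e2
    exact Prod.ext e1 (List.length_eq_zero_iff.mp e2.symm).symm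
  have : ev hP a = ev hP b := by
    rcases h1 with h1 | ⟨a1, a2, c, d, a3, a4, a5⟩ <;>
      rcases h3 with h3 | ⟨b1, b2, c', d', b3, b4, b5⟩
    · rw [h1, h3]
    · exact z h1 b1.symm b2.symm
    · exact (z h3 a1.symm a2.symm).symm
    · refine Prod.ext a1 (app_inj a2 (jtriv_maps (m := (ev hP a).2.length) (fun q r e => ?_)
        b3 b4 a3 a4 b5 a5))
      by_contra hh
      rw [app_some, lt_ge (by omega)] at e
      omega
  exact hne (Fin.ext (by rw [h2, h4, this]))

theorem idemComm : IdemComm (TS P hP) := by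
  have pid : ∀ a : TS P hP, a * a = a → ∀ q r, app (ev hP a).2 q = some r → r = q := by
    intro a ha q r e
    refine (side_ev hP a).elim (fun h => h q r e) fun h => ?_
    have h1 := ev_mul hP a a
    rw [ha, mul] at h1
    split_ifs at h1 with c
    · have h2 := congrFun (congrArg (fun s : El => app s.2) h1) q
      simp only [app_cmp, e, Option.bind_some] at h2
      exact absurd (h r r h2.symm) (lt_irrefl _)
    · rw [h1] at e; simp [zer, app, lt] at e
  intro a b ha hb
  refine Fin.ext ?_
  rw [canon, canon, ev_mul, ev_mul]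
  congr 1
  unfold mul
  by_cases c : (ev hP a).1 = (ev hP b).1 ∧ ¬ (ev hP a).2 = [] ∧ ¬ (ev hP b).2 = []
  · rw [if_pos c, if_pos ⟨c.1.symm, c.2.2, c.2.1⟩]
    refine Prod.ext c.1 (app_inj (by
      simp only [length_cmp]; exact len_eq hP c.1 c.2.1 c.2.2) ?_)
    simp only [app_cmp]
    funext q
    cases e1 : app (ev hP a).2 q with
    | none =>
      cases e2 : app (ev hP b).2 q with
      | none => rfl
      | some r => rw [pid b hb q r e2]; simp [e1]
    | some r =>
      obtain rfl := pid a ha q r e1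
      cases e2 : app (ev hP b).2 r with
      | none => simp [e2]
      | some t => obtain rfl := pid b hb r t e2; simp [e1, e2]
  · rw [if_neg c, if_neg fun h => c ⟨h.1.symm, h.2.2, h.2.1⟩]

/-- the syntactic congruence of a set of words -/
def syn (I : List ℕ → Prop) : Con (FreeSemigroup ℕ) where
  r a b := ∀ p q, I (p ++ toL a ++ q) ↔ I (p ++ toL b ++ q)
  iseqv := ⟨fun _ _ _ => Iff.rfl, fun h p q => (h p q).symm, fun h h' p q => (h p q).trans (h' p q)⟩
  mul' := by
    intro a b c d h h' p q
    have h1 := h p (toL c ++ q)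
    have h2 := h' (p ++ toL b) q
    simp only [toL_mul, List.append_assoc] at h1 h2 ⊢
    exact h1.trans h2

theorem infRank (hK : P.K = 2 * P.B + 1) (hU : Unb P.B P.R P.T) : InfRank (TS P hP) := by
  classical
  intro k
  obtain ⟨n, hn⟩ := birkhoff (TS P hP) k
  obtain ⟨u, v, z, g, h1, h2, h3, h4, h5, h6⟩ := exists_word hP hK hU (n + 1)
  set y := lt u (g + (n + 1 + 1)) with hy
  let I : List ℕ → Prop := fun w => Valid P u w ∧ Before z y w
  have inv : ∀ (s t p q : List ℕ) (φ : ℕ → List ℕ), Valid P s t → s.length ≤ n →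
      (∀ a, φ a ≠ []) → I (p ++ s.flatMap φ ++ q) → I (p ++ t.flatMap φ ++ q) := by
    intro s t p q φ hst hs hφ h
    refine ⟨h.1.trans ((hst.subst hφ).ctx p q), ?_⟩
    obtain ⟨a, b, φ', e1, e2, e3, e4, e5⟩ := add_ctx s t p q hφ
    rw [← e4] at h
    rw [← e5]
    exact no_jump hP h4 h2 e1 (hst.ctx a b) (by simp; omega) (by omega) h.1 h.2
  have hu : u ≠ [] := by rintro rfl; simp at h2
  have hv : v ≠ [] := by rintro rfl; simp at h3
  refine ⟨(syn I).Quotient, inferInstance, ?_, hn _ fun s t hs ht h φ => ?_, mkW u, mkW v,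
    (holds_valid hP _ _).mpr (by rwa [toL_mk hu, toL_mk hv]), fun h => ?_⟩
  · let τ : FreeSemigroup ℕ → Prop × ((u.toFinset → TS P hP) → TS P hP) × Prop × Prop × Prop :=
      fun a => (∀ x ∈ toL a, x ∈ u.toFinset, val (TS P hP) u.toFinset a, z ∈ toL a, y ∈ toL a,
        Before z y (toL a))
    have one : ∀ a b, τ a = τ b → ∀ p q, I (p ++ toL a ++ q) → I (p ++ toL b ++ q) := by
      intro a b e p q h
      simp only [τ, Prod.mk.injEq, eq_iff_iff] at e
      obtain ⟨e1, e2, e3, e4, e5⟩ := e
      have ha : ∀ x ∈ toL a, x ∈ u.toFinset := fun x hx =>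
        List.mem_toFinset.mpr (h.1.symm.mem hP (by simp [hx]))
      refine ⟨h.1.trans (((holds_valid hP _ _).mp
        ((holds_iff_val ha (e1.mp ha)).mpr e2)).ctx p q), ?_⟩
      have := h.2
      simp only [before_append, List.mem_append] at this ⊢
      rw [← e3, ← e4, ← e5]
      exact this
    refine Finite.of_injective (fun c : (syn I).Quotient => τ (Quotient.out c)) fun c d e => ?_
    rw [← Quotient.out_eq c, ← Quotient.out_eq d]
    exact Quotient.sound fun p q => ⟨one _ _ e p q, one _ _ e.symm p q⟩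
  · let σ : ℕ → FreeSemigroup ℕ := fun x => Quotient.out (φ (of x))
    have e : ∀ w, φ w = ((syn I).mkMulHom.comp (FreeSemigroup.lift σ)) w := fun w =>
      hom_congr w fun x _ => by
        rw [MulHom.comp_apply, FreeSemigroup.lift_of]
        exact (Quotient.out_eq _).symm
    rw [e s, e t]
    have hv := (holds_valid hP _ _).mp h
    refine Quotient.sound fun p q => ?_
    rw [toL_lift, toL_lift]
    exact ⟨inv _ _ _ _ _ hv hs fun _ => by simp [toL], inv _ _ _ _ _ hv.symm ht fun _ => by simp [toL]⟩
  · have := Quotient.exact (h (syn I).mkMulHom) [] []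
    simp only [toL_mk hu, toL_mk hv, List.nil_append, List.append_nil] at this
    exact h6 (this.mp ⟨Valid.refl _ _, h5⟩).2

end

open Nat.Partrec in
theorem hard_halt : ∃ f : ℕ → List (List ℕ), Primrec f ∧ ∀ n, ∃ (S : Type) (_ : Semigroup S),
    Nonempty S ∧ Tabulates (f n) S ∧ JTrivial S ∧ IdemComm S ∧
    ((Code.eval (Denumerable.ofNat Code n) 0).Dom → FinBased S) ∧
    (¬ (Code.eval (Denumerable.ofNat Code n) 0).Dom → InfRank S) := by
  obtain ⟨C, A, s, tr, h⟩ := exists_machine
  refine ⟨fun n => tbP (parOf C (A + 4 * n) (slow (load tr s n))), ?_, fun n =>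
    ⟨TS _ (wf_parOf _ _ _), inferInstance, inferInstance, tabulates _, jTrivial _, idemComm _, ?_⟩⟩
  · have := p_tpls C A s tr
    refine p_table ?_ ?_ ?_ ?_ this <;> simp only [parOf] <;> fun_prop
  obtain ⟨h1, h2, h3⟩ := h n
  have hQ : 0 < A + 4 * n := by
    have := (h1 _ (mem_slow.mpr ⟨_, mem_load.mpr (.inl rfl), .inl rfl⟩)).1
    omega
  constructor
  · intro hD
    obtain ⟨m, hm⟩ := h2 hD
    exact finBased _ (fbt_of_bdd (wf_parOf _ _ _) (bdd_of_stops h1 hQ hm))
  · intro hD
    exact infRank _ rfl (unb_of_conn (by omega) (by omega) (conn_tpls h1 hQ)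
      (unbC_of_live h1 hQ (h3 hD)))

open Nat.Partrec in
theorem hard (p : ℕ → Prop) (hp : REPred p) : ∃ f : ℕ → List (List ℕ), Primrec f ∧
    ∀ n, ∃ (S : Type) (_ : Semigroup S), Nonempty S ∧ Tabulates (f n) S ∧ JTrivial S ∧
      IdemComm S ∧ (p n → FinBased S) ∧ (¬ p n → InfRank S) := by
  obtain ⟨f, hf, h⟩ := hard_halt
  have h1 : Partrec fun m : ℕ =>
      (Part.assert (p m.unpair.1) fun _ => Part.some ()).map fun _ => 0 :=
    (hp.comp (Computable.fst.comp Computable.unpair)).map (Computable.const 0).to₂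
  obtain ⟨c, hc⟩ := Code.exists_code.mp (Partrec.nat_iff.mp h1)
  refine ⟨fun n => f (Encodable.encode (Code.curry c n)), hf.comp (Primrec.encode.comp
    (Code.primrec₂_curry.comp (Primrec.const c) Primrec.id)), fun n => ?_⟩
  have e : (Code.eval (Denumerable.ofNat Code (Encodable.encode (Code.curry c n))) 0).Dom ↔
      p n := by
    rw [Denumerable.ofNat_encode, Code.eval_curry, hc]
    simp [Part.assert]
  rw [← e]
  exact h _

end Pool.Agent.P.MP_e7c2f2_al.Hedge
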